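import Mathlib
import Pool.Agent.H798.BV.Stm5

/-!
MP_172a45_an (project of helper798), part G1B: the half line Gaussian integrals.
-/

set_option autoImplicit false

open MeasureTheory Set

namespace Pool.Agent.H166.BV

open Pool.Agent.H798.BV

/-- The real part of the exponent is dominated by a linear one. -/
theorem re_bound (s : ℂ) (x : ℝ) :
    (-((x : ℂ) * s) - (x : ℂ) ^ 2 / 2).re ≤ (1 - s.re) ^ 2 / 2 + -x := by
  have h : (-((x : ℂ) * s) - (x : ℂ) ^ 2 / 2).re = -(x * s.re) - x ^ 2 / 2 := by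
    have h1 : ((x : ℂ) ^ 2 / 2) = ((x ^ 2 / 2 : ℝ) : ℂ) := by push_cast; ring
    rw [h1, Complex.sub_re, Complex.neg_re, Complex.re_ofReal_mul, Complex.ofReal_re]
  rw [h]
  nlinarith [sq_nonneg (x - (1 - s.re))]

theorem norm_bound (n : ℕ) (s : ℂ) {x : ℝ} (hx : 0 < x) :
    ‖(-(x : ℂ)) ^ n * Complex.exp (-((x : ℂ) * s) - (x : ℂ) ^ 2 / 2)‖ ≤
      Real.exp ((1 - s.re) ^ 2 / 2) * (x ^ n * Real.exp (-x)) := by
  rw [norm_mul, norm_pow, norm_neg, Complex.norm_exp, Complex.norm_real, Real.norm_of_nonneg hx.le]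
  have h1 := Real.exp_le_exp.2 (re_bound s x)
  rw [Real.exp_add] at h1
  have h2 : (0 : ℝ) ≤ x ^ n := pow_nonneg hx.le n
  calc x ^ n * Real.exp (-((x : ℂ) * s) - (x : ℂ) ^ 2 / 2).re
      ≤ x ^ n * (Real.exp ((1 - s.re) ^ 2 / 2) * Real.exp (-x)) :=
        mul_le_mul_of_nonneg_left h1 h2
    _ = _ := by ring

theorem int_G (n : ℕ) (s : ℂ) : IntegrableOn
    (fun x : ℝ => (-(x : ℂ)) ^ n * Complex.exp (-((x : ℂ) * s) - (x : ℂ) ^ 2 / 2)) (Ioi 0) := by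
  have h1 : IntegrableOn (fun t : ℝ => t ^ (n : ℝ) * Real.exp (-1 * t ^ (1 : ℝ))) (Ioi 0) :=
    integrableOn_rpow_mul_exp_neg_mul_rpow (by
      have : (0 : ℝ) ≤ n := Nat.cast_nonneg n
      linarith) one_pos one_pos
  refine Integrable.mono' (h1.const_mul (Real.exp ((1 - s.re) ^ 2 / 2))) ?_ ?_
  · apply Continuous.aestronglyMeasurable
    fun_prop
  · filter_upwards [ae_restrict_mem measurableSet_Ioi] with t ht
    have ht0 : (0 : ℝ) < t := ht
    have h2 := norm_bound n s ht0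
    rw [Real.rpow_one, Real.rpow_natCast, neg_one_mul]
    exact h2

theorem tend_G (s : ℂ) :
    Filter.Tendsto (fun x : ℝ => Complex.exp (-((x : ℂ) * s) - (x : ℂ) ^ 2 / 2)) Filter.atTop
      (nhds 0) := by
  rw [tendsto_zero_iff_norm_tendsto_zero]
  have h1 : Filter.Tendsto (fun x : ℝ => Real.exp ((1 - s.re) ^ 2 / 2) * Real.exp (-x))
      Filter.atTop (nhds 0) := by
    have h2 := Real.tendsto_exp_neg_atTop_nhds_zero.const_mul (Real.exp ((1 - s.re) ^ 2 / 2))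
    rw [mul_zero] at h2
    exact h2
  refine squeeze_zero' (Filter.Eventually.of_forall fun x => norm_nonneg _) ?_ h1
  filter_upwards [Filter.eventually_gt_atTop 0] with x hx
  have h3 := norm_bound 0 s hx
  rw [pow_zero, pow_zero, one_mul, one_mul] at h3
  exact h3

theorem der_G (s : ℂ) (t : ℝ) :
    HasDerivAt (fun x : ℝ => Complex.exp (-((x : ℂ) * s) - (x : ℂ) ^ 2 / 2))
      (Complex.exp (-((t : ℂ) * s) - (t : ℂ) ^ 2 / 2) * (-s - (t : ℂ))) t := by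
  have h0 : HasDerivAt (fun x : ℝ => (x : ℂ)) 1 t := Complex.ofRealCLM.hasDerivAt (x := t)
  have h1 : HasDerivAt (fun x : ℝ => -((x : ℂ) * s) - (x : ℂ) ^ 2 / 2)
      (-(1 * s) - ((2 : ℕ) : ℂ) * (t : ℂ) ^ (2 - 1) * 1 / 2) t :=
    ((h0.mul_const s).neg).sub ((h0.pow 2).div_const 2)
  have h2 := h1.cexp
  have e : -(1 * s) - ((2 : ℕ) : ℂ) * (t : ℂ) ^ (2 - 1) * 1 / 2 = -s - (t : ℂ) := by
    norm_num
  rw [e] at h2
  exact h2

theorem part2 (s : ℂ) :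
    ∫ x in Ioi (0 : ℝ), (-(x : ℂ)) * Complex.exp (-((x : ℂ) * s) - (x : ℂ) ^ 2 / 2) =
      s * gG s - 1 := by
  have i0 : IntegrableOn (fun x : ℝ => Complex.exp (-((x : ℂ) * s) - (x : ℂ) ^ 2 / 2)) (Ioi 0) := by
    have h := int_G 0 s
    simpa only [pow_zero, one_mul] using h
  have i1 : IntegrableOn
      (fun x : ℝ => (-(x : ℂ)) * Complex.exp (-((x : ℂ) * s) - (x : ℂ) ^ 2 / 2)) (Ioi 0) := by
    have h := int_G 1 s
    simpa only [pow_one] using h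
  have h1 := integral_Ioi_of_hasDerivAt_of_tendsto' (a := (0 : ℝ))
    (f := fun x : ℝ => Complex.exp (-((x : ℂ) * s) - (x : ℂ) ^ 2 / 2))
    (f' := fun x : ℝ => (-(x : ℂ)) * Complex.exp (-((x : ℂ) * s) - (x : ℂ) ^ 2 / 2) -
      s * Complex.exp (-((x : ℂ) * s) - (x : ℂ) ^ 2 / 2)) (m := 0)
    (fun x _ => by
      have h := der_G s x
      have e : Complex.exp (-((x : ℂ) * s) - (x : ℂ) ^ 2 / 2) * (-s - (x : ℂ)) =
          (-(x : ℂ)) * Complex.exp (-((x : ℂ) * s) - (x : ℂ) ^ 2 / 2) -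
            s * Complex.exp (-((x : ℂ) * s) - (x : ℂ) ^ 2 / 2) := by ring
      rw [e] at h
      exact h)
    (i1.sub (i0.const_mul s)) (tend_G s)
  rw [integral_sub i1 (i0.const_mul s), integral_const_mul] at h1
  have h2 : Complex.exp (-(((0 : ℝ) : ℂ) * s) - ((0 : ℝ) : ℂ) ^ 2 / 2) = 1 := by simp
  have h3 : gG s = ∫ x in Ioi (0 : ℝ), Complex.exp (-((x : ℂ) * s) - (x : ℂ) ^ 2 / 2) := rfl
  rw [← h3] at h1
  have h4 : (0 : ℂ) - Complex.exp (-(((0 : ℝ) : ℂ) * s) - ((0 : ℝ) : ℂ) ^ 2 / 2) = -1 := by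
    rw [h2]; ring
  have h5 := h1.trans h4
  linear_combination h5

theorem expand {K : ℕ} (l : Fin K → ℂ) (B : Finset (Fin K)) (x E : ℂ) :
    (∏ k ∈ B, (1 - x * l k)) * E =
      ∑ S ∈ B.powerset, (∏ k ∈ S, l k) * ((-x) ^ S.card * E) := by
  have h1 : ∏ k ∈ B, (1 - x * l k) = ∏ k ∈ B, ((-x) * l k + 1) :=
    Finset.prod_congr rfl fun k _ => by ring
  rw [h1, Finset.prod_add, Finset.sum_mul]
  refine Finset.sum_congr rfl fun S _ => ?_
  rw [Finset.prod_const_one, mul_one, Finset.prod_mul_distrib, Finset.prod_const]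
  ring

theorem t_G1B : S_G1B := by
  refine ⟨int_G, part2, ?_⟩
  intro K l B s
  have hfun : (fun x : ℝ => (∏ k ∈ B, (1 - (x : ℂ) * l k)) *
      Complex.exp (-((x : ℂ) * s) - (x : ℂ) ^ 2 / 2)) =
      fun x : ℝ => ∑ S ∈ B.powerset, (∏ k ∈ S, l k) *
        ((-(x : ℂ)) ^ S.card * Complex.exp (-((x : ℂ) * s) - (x : ℂ) ^ 2 / 2)) := by
    funext x
    exact expand l B (x : ℂ) _
  rw [hfun, integral_finsetSum _ fun S _ => (int_G S.card s).const_mul _]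
  refine Finset.sum_congr rfl fun S _ => ?_
  rw [integral_const_mul]

end Pool.Agent.H166.BV
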